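import Pool.Agent.U36.TS.Stm

/-! Project TS (helper36), package ORB. -/

set_option autoImplicit false

namespace Pool.Agent.U36.TS

open Finset

/-- the product of the conjugates of a root -/
theorem orb_mul {M : Type} [Field M] (T : M ≃+* M) (n : ℕ) (g c : M) (hg : g ≠ 0)
    (h : (T ^ n) g = c * g) :
    T (∏ t ∈ range n, (T ^ t) g) = c * ∏ t ∈ range n, (T ^ t) g := by
  have h1 : ∏ t ∈ range (n + 1), (T ^ t) g = (∏ t ∈ range n, (T ^ t) g) * (T ^ n) g :=
    prod_range_succ _ _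
  have h2 : ∏ t ∈ range (n + 1), (T ^ t) g = T (∏ t ∈ range n, (T ^ t) g) * g := by
    rw [prod_range_succ', map_prod]
    congr 1
    exact prod_congr rfl fun t _ => by rw [pow_succ', RingAut.mul_apply]
  rw [h1, h] at h2
  apply mul_right_cancel₀ hg
  rw [← h2]
  ring

/-- the roots of unity of order `l ^ m` in terms of cosets -/
theorem orb_prod {M : Type} [Field M] {l r m n : ℕ} (hl : l.Prime) (hrm : r ≤ m)
    (hn : n = l ^ (m - r)) {θ : M} (hθ : IsPrimitiveRoot θ (l ^ m)) {α : ℤ} (hα : ¬ (l : ℤ) ∣ α)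
    (y : M) : ∏ i ∈ range (l ^ r), ∏ t ∈ range n, (1 - θ ^ ((i : ℤ) + l ^ r * α * t) * y) =
      1 - y ^ l ^ m := by
  classical
  have hlm : l ^ r * n = l ^ m := by
    rw [hn, ← pow_add]
    congr 1
    omega
  have hlm0 : 0 < l ^ m := pow_pos hl.pos m
  have hθ0 : θ ≠ 0 := hθ.ne_zero hlm0.ne'
  let φ : ℕ × ℕ → M := fun p => θ ^ ((p.1 : ℤ) + l ^ r * α * p.2)
  have hinj : Set.InjOn φ (range (l ^ r) ×ˢ range n : Finset (ℕ × ℕ)) := by
    rintro ⟨i, s⟩ hp ⟨i', s'⟩ hp' h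
    simp only [coe_product, Set.mem_prod, coe_range, Set.mem_Iio] at hp hp'
    have h1 : θ ^ ((i : ℤ) + l ^ r * α * s) = θ ^ ((i' : ℤ) + l ^ r * α * s') := h
    have h2 : θ ^ (((i : ℤ) + l ^ r * α * s) - ((i' : ℤ) + l ^ r * α * s')) = 1 := by
      rw [zpow_sub₀ hθ0, h1, div_self (zpow_ne_zero _ hθ0)]
    have h3 := (hθ.zpow_eq_one_iff_dvd _).1 h2
    have hlmz : ((l ^ m : ℕ) : ℤ) = (l : ℤ) ^ r * n := by rw [← hlm]; push_cast; ring
    rw [hlmz] at h3
    have h4 : (l : ℤ) ^ r ∣ (i : ℤ) - i' := by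
      have h5 : (l : ℤ) ^ r ∣ ((i : ℤ) + l ^ r * α * s) - ((i' : ℤ) + l ^ r * α * s') :=
        (Dvd.intro _ rfl).trans h3
      have h6 : (l : ℤ) ^ r ∣ l ^ r * (α * s - α * s') := Dvd.intro _ rfl
      have h7 := dvd_sub h5 h6
      have e : ((i : ℤ) + l ^ r * α * s) - ((i' : ℤ) + l ^ r * α * s') -
          l ^ r * (α * s - α * s') = (i : ℤ) - i' := by ring
      rwa [e] at h7
    have h8 : i = i' := by
      have h9 : |(i : ℤ) - i'| < (l : ℤ) ^ r := by
        rw [abs_lt]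
        have a1 : (i : ℤ) < (l : ℤ) ^ r := by exact_mod_cast hp.1
        have a2 : (i' : ℤ) < (l : ℤ) ^ r := by exact_mod_cast hp'.1
        constructor <;> omega
      have := Int.eq_zero_of_abs_lt_dvd h4 h9
      omega
    subst h8
    have h10 : (l : ℤ) ^ r * n ∣ (l : ℤ) ^ r * (α * ((s : ℤ) - s')) := by
      have e : ((i : ℤ) + l ^ r * α * s) - ((i : ℤ) + l ^ r * α * s') =
        (l : ℤ) ^ r * (α * ((s : ℤ) - s')) := by ring
      rwa [e] at h3
    have hlr0 : (l : ℤ) ^ r ≠ 0 := pow_ne_zero _ (by exact_mod_cast hl.ne_zero)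
    have h11 : (n : ℤ) ∣ α * ((s : ℤ) - s') := Int.dvd_of_mul_dvd_mul_left hlr0 h10
    have hcop : IsCoprime (n : ℤ) α := by
      rw [hn]
      push_cast
      exact ((Nat.prime_iff_prime_int.1 hl).coprime_iff_not_dvd.2 hα).pow_left
    have h12 : (n : ℤ) ∣ (s : ℤ) - s' := hcop.dvd_of_dvd_mul_left h11
    have h13 : s = s' := by
      have h9 : |(s : ℤ) - s'| < (n : ℤ) := by
        rw [abs_lt]
        have a1 : (s : ℤ) < (n : ℤ) := by exact_mod_cast hp.2
        have a2 : (s' : ℤ) < (n : ℤ) := by exact_mod_cast hp'.2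
        constructor <;> omega
      have := Int.eq_zero_of_abs_lt_dvd h12 h9
      omega
    rw [h13]
  have himg : (range (l ^ r) ×ˢ range n).image φ = Polynomial.nthRootsFinset (l ^ m) (1 : M) := by
    apply eq_of_subset_of_card_le
    · intro x hx
      obtain ⟨p, -, rfl⟩ := mem_image.1 hx
      rw [Polynomial.mem_nthRootsFinset hlm0]
      change (θ ^ ((p.1 : ℤ) + l ^ r * α * p.2)) ^ (l ^ m) = 1
      rw [← zpow_natCast, ← zpow_mul, mul_comm, zpow_mul, zpow_natCast, hθ.pow_eq_one, one_zpow]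
    · rw [hθ.card_nthRootsFinset, card_image_of_injOn hinj, card_product, card_range, card_range,
        hlm]
  have h1 := hθ.pow_sub_pow_eq_prod_sub_mul 1 y hlm0
  rw [one_pow] at h1
  rw [h1, ← himg, prod_image hinj, prod_product]

theorem t_ORB (hEX : S_EX) : S_ORB := by
  intro M _ l q th T Ph U hT r m k α b z y hrm hα hz h1z hTz hy hEz hEb
  have hl : l.Prime := hT.prime
  obtain ⟨n, hn⟩ : ∃ n, n = l ^ (m - r) := ⟨_, rfl⟩
  have hlm : l ^ r * n = l ^ m := by
    rw [hn, ← pow_add]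
    congr 1
    omega
  have hth0 : ∀ m, th m ≠ 0 := fun m => (hT.prim m).ne_zero (pow_ne_zero _ hl.ne_zero)
  have hyU : y ∈ U := hT.of_pow y m (by rw [hy]; exact hz)
  have hTy : T y = th m ^ ((l : ℤ) ^ r * α) * y := hEz y hy
  have hTth : ∀ (m : ℕ) (i : ℤ), T (th m ^ i) = th m ^ i := by
    intro m i
    rw [map_zpow₀, hT.T_fix]
  have hTk : ∀ (s : ℕ) (i : ℤ),
      (T ^ s) (th m ^ i * y) = th m ^ (i + (l : ℤ) ^ r * α * s) * y := by
    intro s
    induction s with
    | zero => intro i; simp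
    | succ s ih =>
      intro i
      rw [pow_succ', RingAut.mul_apply, ih, map_mul, hTth, hTy, ← mul_assoc,
        ← zpow_add₀ (hth0 m)]
      congr 2
      push_cast
      ring
  have hS : ∀ i : ℕ, (T ^ n) (1 - th m ^ i * y) = 1 - th m ^ i * y := by
    intro i
    rw [map_sub, map_one, ← zpow_natCast (th m) i, hTk]
    have e : (i : ℤ) + (l : ℤ) ^ r * α * n = i + ((l ^ m : ℕ) : ℤ) * α := by
      rw [← hlm]; push_cast; ring
    rw [e, zpow_add₀ (hth0 m), zpow_mul, zpow_natCast (th m) (l ^ m), (hT.prim m).pow_eq_one,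
      one_zpow, mul_one]
  have hSth : ∀ m, (T ^ n) (th m) = th m := by
    intro m
    have : ∀ s : ℕ, (T ^ s) (th m) = th m := by
      intro s
      induction s with
      | zero => rfl
      | succ s ih => rw [pow_succ', RingAut.mul_apply, ih, hT.T_fix]
    exact this n
  have hx : ∀ i : ℕ, 1 - th m ^ i * y ∈ U := by
    intro i
    have := hT.one_sub y hyU m (by rw [hy]; exact h1z) i
    rwa [zpow_natCast] at this
  have hex := (hEX M l q th T Ph U hT (T ^ n) hSth).1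
  choose J hJ using fun i : ℕ => hex _ (hx i) (hS i) k
  rw [← hn]
  refine ⟨J, fun i _ => hJ i, ?_⟩
  choose g hg using fun i : ℕ => hT.root _ (hx i) k
  have hg0 : ∀ i, g i ≠ 0 := by
    intro i h
    have h1 := hg i
    rw [h, zero_pow (pow_ne_zero _ hl.ne_zero)] at h1
    exact hT.ne_zero _ (hx i) h1.symm
  have hgi : ∀ i, (T ^ n) (g i) = th k ^ J i * g i := fun i => hJ i _ (hg i)
  obtain ⟨h, hh⟩ : ∃ h, h = ∏ i ∈ range (l ^ r), ∏ t ∈ range n, (T ^ t) (g i) := ⟨_, rfl⟩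
  have hpow : h ^ l ^ k = 1 - z := by
    rw [hh, ← hy, ← orb_prod hl hrm hn (hT.prim m) hα y, ← prod_pow]
    refine prod_congr rfl fun i _ => ?_
    rw [← prod_pow]
    refine prod_congr rfl fun t _ => ?_
    rw [← map_pow, hg, map_sub, map_one, ← zpow_natCast (th m) i, hTk]
  have hTh : T h = th k ^ (∑ i ∈ range (l ^ r), J i) * h := by
    rw [hh, map_prod]
    have e : ∀ s : Finset ℕ, th k ^ (∑ i ∈ s, J i) = ∏ i ∈ s, th k ^ J i := by
      intro s
      induction s using Finset.induction_on with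
      | empty => simp
      | insert a s ha ih => rw [sum_insert ha, prod_insert ha, zpow_add₀ (hth0 k), ih]
    rw [e, ← prod_mul_distrib]
    exact prod_congr rfl fun i _ => orb_mul T n (g i) _ (hg0 i) (hgi i)
  have hb := hEb h hpow
  have hh0 : h ≠ 0 := by
    intro h0
    rw [h0, zero_pow (pow_ne_zero _ hl.ne_zero)] at hpow
    exact hT.ne_zero _ h1z hpow.symm
  rw [hTh] at hb
  have h1 := mul_right_cancel₀ hh0 hb
  have h2 : th k ^ (b - ∑ i ∈ range (l ^ r), J i) = 1 := by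
    rw [zpow_sub₀ (hth0 k), h1, div_self (zpow_ne_zero _ (hth0 k))]
  have h3 := ((hT.prim k).zpow_eq_one_iff_dvd _).1 h2
  exact_mod_cast h3

end Pool.Agent.U36.TS
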